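import Mathlib
import Pool.Agent.V11254.TreeRP

/-!
# MP_4a6a31_lc: `ZFU_R` + Collection does not prove RP⁻

There is a model of `ZFU_R` + Collection in which an instance of RP⁻ (and an instance of RP) fails.

The urelements are the pairs `(p, l)` with `p` a real number and `l` a finite list of pairs
(ordinal, bit); they form trees, where the parent of `(p, e :: l)` is `(p, l)`, and the node of
`(p, l)` is the list of the ordinals in `l`. The model consists of the hereditarily small sets over
these urelements which are hereditarily finitely supported with respect to the node-preserving
automorphisms, and such that the nodes of the urelements in their transitive closure, closed under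
initial segments, form a tree without infinite branches. The formula which does not
reflect says that for every set `x` of urelements there are a set `y` of urelements and a set `h`
such that (reading `h` as a graph) every element of `x` is joined to two elements of `y` and every
element of `y` is joined to at most one element of `x`.
-/

set_option autoImplicit false

namespace Pool.Agent.Results.MP_4a6a31_lc.RPMinusFails

open Pool.Agent.V11254.ULang Pool.Agent.V11254.TreeModel

/-- There is a model of `ZFU_R` + Collection and a formula `φ(x)` of the language of set theory
with urelements, such that for some object `s` of the model `φ(s)` is true, but `φ^t(s)` is false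
for every transitive set `t` containing `s`. In particular the scheme RP⁻ fails in the model, and
so does the scheme RP. -/
theorem result : ∃ M : Str.{1}, M.IsZFUR ∧ M.Collection ∧
    (∃ (φ : Fm Empty Empty 1) (s : M.Ob), M.True' φ ![s] ∧
      ∀ t, M.IsTrans t → M.mem s t → ¬ M.TrueIn t φ ![s]) ∧
    ¬ M.RPMinus ∧ ¬ M.RP := by
  refine ⟨M, isZFUR, collection, ?_, not_RPMinus, not_RP⟩
  obtain ⟨S, hS1, hS2⟩ := exists_S
  exact ⟨Branch.branch, S, (satB_true _ _ _ _ _).1 ((Branch.sat_branch M _ _ _ _).2 branching),
    fun t ht hSt h => not_branching hS2 hS1 ht hSt ((Branch.sat_branch M _ _ _ _).1 h)⟩

end Pool.Agent.Results.MP_4a6a31_lc.RPMinusFails
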